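import Mathlib
import Pool.Agent.Y700.VC
import Pool.Agent.Q243.PR.Inf

/-!
# Changes of Weierstrass equations: the rank, the Tate-Shafarevich group, the `2 ^ ∞`-Selmer group
-/

set_option autoImplicit false

namespace Pool.Agent.Q8.TP

open WeierstrassCurve Pool.Agent.TH841.SH.D Pool.Agent.Q243.PR Pool.Agent.Y700

attribute [-instance] DivisionRing.toRatAlgebra

variable {W W' : WeierstrassCurve ℚ} {u r s t : ℚ}

lemma mapD (hD : W'.Δ ≠ 0) (L : Type) [Field L] [Algebra ℚ L] :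
    (W'.map (algebraMap ℚ L)).Δ ≠ 0 := by
  rw [WeierstrassCurve.map_Δ]
  exact (map_ne_zero _).2 hD

/-- the isomorphism of the groups of points over `L` -/
noncomputable def eqv (h : VR W W' u r s t) (hD : W'.Δ ≠ 0) (L : Type) [Field L] [Algebra ℚ L] :
    Pt W' L ≃+ Pt W L :=
  @VR.equiv L _ (Classical.decEq L) (W.map (algebraMap ℚ L)) (W'.map (algebraMap ℚ L)) _ _ _ _
    (h.map (algebraMap ℚ L)) (mapD hD L)

lemma eqv_act (h : VR W W' u r s t) (hD : W'.Δ ≠ 0) {F L : Type} [Field F] [Field L] [Algebra ℚ F]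
    [Algebra ℚ L] (φ : F →ₐ[ℚ] L) (P : Pt W' F) :
    act W φ (eqv h hD F P) = eqv h hD L (act W' φ P) := by
  classical
  have key : ∀ P : (W'.baseChange F).toAffine.Point, act W φ (eqv h hD F P) =
      eqv h hD L (act W' φ P) := by
    intro P
    match P with
    | 0 =>
      change act W φ (eqv h hD F (0 : Pt W' F)) = eqv h hD L (act W' φ (0 : Pt W' F))
      rw [map_zero, map_zero, map_zero, map_zero]
    | .some x y hn =>
      have e1 : φ (algebraMap ℚ F u ^ 2 * x + algebraMap ℚ F r) =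
          algebraMap ℚ L u ^ 2 * φ x + algebraMap ℚ L r := by
        rw [map_add, map_mul, map_pow, AlgHom.commutes, AlgHom.commutes]
      have e2 : φ (algebraMap ℚ F u ^ 3 * y + algebraMap ℚ F u ^ 2 * algebraMap ℚ F s * x +
          algebraMap ℚ F t) = algebraMap ℚ L u ^ 3 * φ y +
            algebraMap ℚ L u ^ 2 * algebraMap ℚ L s * φ x + algebraMap ℚ L t := by
        simp only [map_add, map_mul, map_pow, AlgHom.commutes]
      exact Affine.Point.some.injEq _ _ _ _ _ _ |>.mpr ⟨e1, e2⟩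
  exact key P

lemma eqv_symm_act (h : VR W W' u r s t) (hD : W'.Δ ≠ 0) {F L : Type} [Field F] [Field L]
    [Algebra ℚ F] [Algebra ℚ L] (φ : F →ₐ[ℚ] L) (P : Pt W F) :
    act W' φ ((eqv h hD F).symm P) = (eqv h hD L).symm (act W φ P) := by
  rw [AddEquiv.eq_symm_apply, ← eqv_act, AddEquiv.apply_symm_apply]

/-- a natural isomorphism of the groups of points -/
structure Nat2 (W W' : WeierstrassCurve ℚ) where
  e : ∀ (L : Type) [Field L] [Algebra ℚ L], Pt W' L ≃+ Pt W L
  nat : ∀ {F L : Type} [Field F] [Field L] [Algebra ℚ F] [Algebra ℚ L] (φ : F →ₐ[ℚ] L)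
    (P : Pt W' F), act W φ (e F P) = e L (act W' φ P)

/-- the isomorphism given by a change of the equations -/
noncomputable def nat2 (h : VR W W' u r s t) (hD : W'.Δ ≠ 0) : Nat2 W W' :=
  ⟨fun L _ _ => eqv h hD L, fun φ P => eqv_act h hD φ P⟩

/-- the inverse -/
noncomputable def Nat2.symm (N : Nat2 W W') : Nat2 W' W :=
  ⟨fun L _ _ => (N.e L).symm, fun {F L} _ _ _ _ φ P => by
    rw [AddEquiv.eq_symm_apply, ← N.nat, AddEquiv.apply_symm_apply]⟩

section

variable (N : Nat2 W W')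

/-- the map on the cochains -/
noncomputable def Nat2.cm : Coch W' →+ Coch W where
  toFun f := fun σ => N.e _ (f σ)
  map_zero' := by
    funext σ
    exact map_zero _
  map_add' f g := by
    funext σ
    exact map_add _ _ _

lemma Nat2.cm_coc {f : Coch W'} (hf : IsCoc W' f) : IsCoc W (N.cm f) := by
  refine ⟨hf.1.comp _, fun σ τ => ?_⟩
  change N.e _ (f (σ * τ)) = N.e _ (f σ) + act W σ.toAlgHom (N.e _ (f τ))
  rw [hf.2, map_add, N.nat]

lemma Nat2.cm_loc {K : Type} [Field K] [Algebra ℚ K] {f : Coch W'} (hf : LocTriv W' K f) :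
    LocTriv W K (N.cm f) := by
  intro ι
  obtain ⟨P, hP⟩ := hf ι
  refine ⟨N.e _ P, fun τ σ hh => ?_⟩
  change act W ι (N.e _ (f σ)) = act W (τ.toAlgHom.restrictScalars ℚ) (N.e _ P) - N.e _ P
  rw [N.nat, N.nat, hP τ σ hh, map_sub]

lemma Nat2.cm_sha {f : Coch W'} (hf : IsShaCoc W' f) : IsShaCoc W (N.cm f) :=
  ⟨N.cm_coc hf.1, fun p _ => by
    letI : Algebra ℚ ℚ_[p] := DivisionRing.toRatAlgebra
    exact N.cm_loc (hf.2.1 p), N.cm_loc hf.2.2⟩

lemma Nat2.cm_inf {f : Coch W'} (hf : IsSelInf W' f) : IsSelInf W (N.cm f) := by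
  refine ⟨N.cm_sha hf.1, fun σ => ?_⟩
  obtain ⟨m, hm⟩ := hf.2 σ
  refine ⟨m, ?_⟩
  change 2 ^ m • N.e _ (f σ) = 0
  rw [← map_nsmul, hm, map_zero]

lemma Nat2.cm_cob {f : Coch W'} (hf : IsCob W' f) : IsCob W (N.cm f) := by
  obtain ⟨P, hP⟩ := hf
  refine ⟨N.e _ P, fun σ => ?_⟩
  change N.e _ (f σ) = act W σ.toAlgHom (N.e _ P) - N.e _ P
  rw [hP, map_sub, N.nat]

lemma Nat2.cm_cobInf {f : Coch W'} (hf : IsCobInf W' f) : IsCobInf W (N.cm f) := by
  obtain ⟨P, ⟨m, hm⟩, hP⟩ := hf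
  refine ⟨N.e _ P, ⟨m, by rw [← map_nsmul, hm, map_zero]⟩, fun σ => ?_⟩
  change N.e _ (f σ) = act W σ.toAlgHom (N.e _ P) - N.e _ P
  rw [hP, map_sub, N.nat]

lemma Nat2.cm_symm (f : Coch W) : N.cm (N.symm.cm f) = f := by
  funext σ
  change N.e _ ((N.e _).symm (f σ)) = f σ
  rw [AddEquiv.apply_symm_apply]

/-- the map on the cocycles of the Tate-Shafarevich group -/
noncomputable def Nat2.sm : shaCoc W' →+ shaCoc W :=
  (N.cm.comp (shaCoc W').subtype).codRestrict (shaCoc W) fun c => N.cm_sha c.2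

/-- the map on the cocycles of the Selmer group -/
noncomputable def Nat2.im : selInfCoc W' →+ selInfCoc W :=
  (N.cm.comp (selInfCoc W').subtype).codRestrict (selInfCoc W) fun c => N.cm_inf c.2

/-- the isomorphism of the cocycles -/
noncomputable def Nat2.imE : selInfCoc W' ≃+ selInfCoc W :=
  AddEquiv.ofBijective N.im ⟨fun c d hcd => by
    apply Subtype.ext
    have h1 : N.cm c.1 = N.cm d.1 := congrArg Subtype.val hcd
    funext σ
    exact (N.e _).injective (congrFun h1 σ), fun c => ⟨N.symm.im c, Subtype.ext (N.cm_symm c.1)⟩⟩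

lemma Nat2.imE_cob : AddSubgroup.map (N.imE : selInfCoc W' →+ selInfCoc W)
    ((cobInf W').addSubgroupOf (selInfCoc W')) = (cobInf W).addSubgroupOf (selInfCoc W) := by
  ext c
  rw [AddSubgroup.mem_map]
  constructor
  · rintro ⟨d, hd, rfl⟩
    rw [AddSubgroup.mem_addSubgroupOf] at hd ⊢
    exact N.cm_cobInf hd
  · intro hc
    rw [AddSubgroup.mem_addSubgroupOf] at hc
    refine ⟨N.symm.im c, ?_, Subtype.ext (N.cm_symm c.1)⟩
    rw [AddSubgroup.mem_addSubgroupOf]
    exact N.symm.cm_cobInf hc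

/-- **the isomorphism of the `2 ^ ∞`-Selmer groups** -/
noncomputable def Nat2.inf : SelInf W' ≃+ SelInf W :=
  QuotientAddGroup.congr _ _ N.imE N.imE_cob

/-- the isomorphism of the cocycles -/
noncomputable def Nat2.smE : shaCoc W' ≃+ shaCoc W :=
  AddEquiv.ofBijective N.sm ⟨fun c d hcd => by
    apply Subtype.ext
    have h1 : N.cm c.1 = N.cm d.1 := congrArg Subtype.val hcd
    funext σ
    exact (N.e _).injective (congrFun h1 σ), fun c => ⟨N.symm.sm c, Subtype.ext (N.cm_symm c.1)⟩⟩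

lemma Nat2.smE_cob : AddSubgroup.map (N.smE : shaCoc W' →+ shaCoc W)
    ((cob W').addSubgroupOf (shaCoc W')) = (cob W).addSubgroupOf (shaCoc W) := by
  ext c
  rw [AddSubgroup.mem_map]
  constructor
  · rintro ⟨d, hd, rfl⟩
    rw [AddSubgroup.mem_addSubgroupOf] at hd ⊢
    exact N.cm_cob hd
  · intro hc
    rw [AddSubgroup.mem_addSubgroupOf] at hc
    refine ⟨N.symm.sm c, ?_, Subtype.ext (N.cm_symm c.1)⟩
    rw [AddSubgroup.mem_addSubgroupOf]
    exact N.symm.cm_cob hc

/-- **the isomorphism of the Tate-Shafarevich groups** -/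
noncomputable def Nat2.sha : Sha W' ≃+ Sha W :=
  QuotientAddGroup.congr _ _ N.smE N.smE_cob

end

/-- the rank -/
lemma rk_eq (h : VR W W' u r s t) (hD : W'.Δ ≠ 0) : rk W' = rk W := by
  unfold rk
  exact LinearEquiv.finrank_eq (VR.equiv h hD).toIntLinearEquiv

/-- the bijection of the elements of order dividing `n` -/
lemma tor_card {A B : Type} [AddCommGroup A] [AddCommGroup B] (e : A ≃+ B) (n : ℕ) :
    (Finite {x : A // n • x = 0} ↔ Finite {x : B // n • x = 0}) ∧
      Nat.card {x : A // n • x = 0} = Nat.card {x : B // n • x = 0} := by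
  let g : {x : A // n • x = 0} ≃ {x : B // n • x = 0} :=
    e.toEquiv.subtypeEquiv fun x => by
      change n • x = 0 ↔ n • e x = 0
      rw [← map_nsmul, map_eq_zero_iff e e.injective]
  exact ⟨g.finite_iff, Nat.card_congr g⟩

end Pool.Agent.Q8.TP
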